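import Pool.Agent.Lib_helper91.RdvUpper
set_option autoImplicit false

/-!
Pulling pairs of a level back along a word, powers of a word, and the length of a phase in which
the maximal total of the weights does not change (no connectivity needed).
-/

namespace Pool.Agent.Lib_helper76.TF

open Finset Pool.Agent.Lib_helper91.Rdv

universe u v

section Words

variable {Q : Type u} {A : Type v}

theorem Into_append {δ : A → Q → Q} {u w : List A} {a b x y : Q} (h : Into δ u a b)
    (ha : run δ w a = x) (hb : run δ w b = y) : Into δ (u ++ w) x y := by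
  obtain ⟨p, q, r, h1, h2, h3, h4, h5, h6⟩ := h
  have key : ∀ z : Q, (run δ u z = a ∨ run δ u z = b) →
      (run δ (u ++ w) z = x ∨ run δ (u ++ w) z = y) := by
    intro z hz
    rw [run_append]
    rcases hz with hz | hz
    · rw [hz]; exact Or.inl ha
    · rw [hz]; exact Or.inr hb
  exact ⟨p, q, r, h1, h2, h3, key _ h4, key _ h5, key _ h6⟩

/-- Pairs of a level pull back along a word to pairs of an earlier level. -/
theorem EE_pull {δ : A → Q → Q} {k j : ℕ} {x y a b : Q} (h : EE δ k x y) {w : List A}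
    (ha : run δ w a = x) (hb : run δ w b = y) (hl : w.length + j ≤ k) : EE δ j a b := by
  refine ⟨fun hab => h.1 (by rw [← ha, ← hb, hab]), fun u hu hI => ?_⟩
  exact h.2 (u ++ w) (by rw [List.length_append]; omega) (Into_append hI ha hb)

/-- Powers of a word. -/
def pw (w : List A) : ℕ → List A
  | 0 => []
  | i + 1 => w ++ pw w i

theorem pw_length (w : List A) (i : ℕ) : (pw w i).length = w.length * i := by
  induction i with
  | zero => rfl
  | succ i ih => rw [pw, List.length_append, ih]; ring

theorem run_pw (δ : A → Q → Q) (w : List A) (i : ℕ) (x : Q) :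
    run δ (pw w i) x = (run δ w)^[i] x := by
  induction i generalizing x with
  | zero => rfl
  | succ i ih => rw [pw, run_append, ih, Function.iterate_succ_apply]

end Words

variable {Q : Type u} {A : Type v} [Fintype Q] [DecidableEq Q]

/-- A point mass is not in the span of the weights of maximal total. -/
theorem single_notMem_spanE {E : Q → Q → Prop} (hsymm : ∀ x y, E x y → E y x) {g0 : Q → ℕ}
    (hle : ∀ x, g0 x ≤ 2) (hpair : ∀ x y, E x y → g0 x + g0 y ≤ 2)
    (hmax : ∀ g : Q → ℕ, (∀ x, g x ≤ 2) → (∀ x y, E x y → g x + g y ≤ 2) →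
      ∑ x, g x ≤ ∑ x, g0 x) {m : ℕ} (hm : ∑ x, g0 x = m) (hm3 : 3 ≤ m) (q : Q) :
    (Pi.single q (m : ℚ) : Q → ℚ) ∉ spanE E m := by
  classical
  obtain ⟨I, _, s, t, hs, ht, hst, hcard⟩ := exists_arcs hsymm hle hpair hmax
  rw [hm] at hcard
  have hP : ∀ f ∈ spanE E m, ∃ c : ℚ, ∑ x, f x = c * m ∧ (∀ i, f (s i) + f (t i) = 2 * c) ∧
      ∀ x, (∀ i, s i ≠ x) → f x = 2 * c := by
    intro f hf
    unfold spanE at hf
    induction hf using Submodule.span_induction with
    | mem f hf =>
      obtain ⟨g, h1, h2, h3, rfl⟩ := hf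
      obtain ⟨h4, h5⟩ := arcs_tight h1 h2 hs ht hst (by rw [h3]; exact hcard)
      refine ⟨1, ?_, ?_, ?_⟩
      · rw [one_mul, ← h3]
        push_cast
        rfl
      · intro i
        have := h4 i
        have h6 : ((g (s i) + g (t i) : ℕ) : ℚ) = 2 := by rw [this]; norm_num
        push_cast at h6
        linarith
      · intro x hx
        have := h5 x hx
        simp [this]
    | zero => exact ⟨0, by simp, by simp, by simp⟩
    | add f g _ _ hf hg =>
      obtain ⟨c, h1, h2, h3⟩ := hf
      obtain ⟨d, h4, h5, h6⟩ := hg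
      refine ⟨c + d, ?_, ?_, ?_⟩
      · simp only [Pi.add_apply, Finset.sum_add_distrib, h1, h4]
        ring
      · intro i
        simp only [Pi.add_apply]
        linarith [h2 i, h5 i]
      · intro x hx
        simp only [Pi.add_apply]
        linarith [h3 x hx, h6 x hx]
    | smul r f _ hf =>
      obtain ⟨c, h1, h2, h3⟩ := hf
      refine ⟨r * c, ?_, ?_, ?_⟩
      · simp only [Pi.smul_apply, smul_eq_mul, ← Finset.mul_sum, h1]
        ring
      · intro i
        simp only [Pi.smul_apply, smul_eq_mul]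
        rw [← mul_add, h2 i]
        ring
      · intro x hx
        simp only [Pi.smul_apply, smul_eq_mul]
        rw [h3 x hx]
        ring
  intro hmem
  obtain ⟨c, h1, h2, h3⟩ := hP _ hmem
  have hmq : (3 : ℚ) ≤ m := by exact_mod_cast hm3
  have hsum : ∑ x, (Pi.single q (m : ℚ) : Q → ℚ) x = m := by
    rw [Finset.sum_eq_single q]
    · simp
    · intro b _ hb
      rw [Pi.single_eq_of_ne hb]
    · simp
  rw [hsum] at h1
  have hc : c = 1 := by
    have hm0 : (m : ℚ) ≠ 0 := by linarith
    have : c * m = 1 * m := by linarith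
    exact mul_right_cancel₀ hm0 this
  subst hc
  by_cases hI : Nonempty I
  · obtain ⟨i⟩ := hI
    have h := h2 i
    by_cases h4 : s i = q <;> by_cases h5 : t i = q
    · rw [h4, h5, Pi.single_eq_same] at h
      linarith
    · rw [h4, Pi.single_eq_same, Pi.single_eq_of_ne h5] at h
      linarith
    · rw [h5, Pi.single_eq_same, Pi.single_eq_of_ne h4] at h
      linarith
    · rw [Pi.single_eq_of_ne h4, Pi.single_eq_of_ne h5] at h
      linarith
  · have h := h3 q (fun i => (hI ⟨i⟩).elim)
    rw [Pi.single_eq_same] at h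
    linarith

/-- A phase in which the maximal total of the weights is constant has at most `n / 2 + 1`
levels. -/
theorem phase_le {δ : A → Q → Q} {r : List A} {q : Q} (hr : ∀ p, run δ r p = q)
    (hn : 3 ≤ Fintype.card Q) {N : ℕ} (hN : ∀ w, Tri δ w → N ≤ w.length) {m : ℕ → ℕ}
    (hm : ∀ k, ∃ g, GG δ k g ∧ ∑ x, g x = m k) (hmmax : ∀ k g, GG δ k g → ∑ x, g x ≤ m k)
    {a : ℕ} (ha : 1 ≤ a) (b : ℕ) (hab : a ≤ b) (hb : b ≤ N)
    (hconst : ∀ k, a ≤ k → k ≤ b → m k = m a) : b + 1 ≤ a + (Fintype.card Q / 2 + 1) := by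
  classical
  set n := Fintype.card Q with hnd
  have hmn : ∀ k, n ≤ m k := by
    intro k
    have := hmmax k _ (GG.one δ k)
    simpa using this
  have hdim : ∀ k, 2 * Module.finrank ℚ (spanE (EE δ k) (m k)) + m k ≤ 2 * n + 2 := by
    intro k
    obtain ⟨g, hg, hgm⟩ := hm k
    refine finrank_spanE_le (fun x y h => h.symm) (fun x y h => h.1) hg.le hg.pair ?_ hgm ?_
    · intro g' h1 h2
      rw [hgm]
      exact hmmax k g' ⟨h1, h2⟩
    · have := hmn k
      omega
  have hmem : ∀ k, ∃ f ∈ spanE (EE δ k) (m k), ∑ x, f x = (m k : ℚ) := by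
    intro k
    obtain ⟨g, hg, hgm⟩ := hm k
    refine ⟨fun x => (g x : ℚ), Submodule.subset_span ⟨g, hg.le, hg.pair, hgm, rfl⟩, ?_⟩
    rw [← hgm]
    push_cast
    rfl
  have hpos : ∀ k, 1 ≤ Module.finrank ℚ (spanE (EE δ k) (m k)) := by
    intro k
    obtain ⟨f, hf, h0⟩ := hmem k
    rw [Nat.one_le_iff_ne_zero]
    intro h
    rw [Submodule.finrank_eq_zero] at h
    rw [h, Submodule.mem_bot] at hf
    have h1 := hmn k
    rw [hf] at h0
    have h2 : (m k : ℚ) = 0 := by rw [← h0]; simp
    have h3 : m k = 0 := by exact_mod_cast h2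
    omega
  have hstep : ∀ k, 1 ≤ k → k + 1 ≤ N → m k = m (k + 1) →
      Module.finrank ℚ (spanE (EE δ k) (m k)) <
        Module.finrank ℚ (spanE (EE δ (k + 1)) (m (k + 1))) := by
    intro k hk hkN heq
    have hle : spanE (EE δ k) (m k) ≤ spanE (EE δ (k + 1)) (m (k + 1)) := by
      apply Submodule.span_mono
      rintro f ⟨g, h1, h2, h3, rfl⟩
      exact ⟨g, h1, fun x y hxy => h2 x y (hxy.mono (Nat.le_succ k)), h3.trans heq, rfl⟩
    refine lt_of_le_of_ne (Submodule.finrank_mono hle) ?_
    intro hfr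
    have hV := Submodule.eq_of_le_of_finrank_eq hle hfr
    obtain ⟨f, hf, h0⟩ := hmem k
    have hletter : ∀ (a : A) (f : Q → ℚ), f ∈ spanE (EE δ k) (m k) →
        pushQ δ [a] f ∈ spanE (EE δ k) (m k) := by
      intro a f hf
      rw [hV]
      unfold spanE at hf
      have : Submodule.span ℚ {f | ∃ g : Q → ℕ, (∀ x, g x ≤ 2) ∧
          (∀ x y, EE δ k x y → g x + g y ≤ 2) ∧ ∑ x, g x = m k ∧ f = fun x => (g x : ℚ)} ≤
          (spanE (EE δ (k + 1)) (m (k + 1))).comap (pushQ δ [a]) := by
        rw [Submodule.span_le]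
        rintro f ⟨g, h1, h2, h3, rfl⟩
        rw [SetLike.mem_coe, Submodule.mem_comap, pushQ_cast]
        have hg : GG δ k g := ⟨h1, h2⟩
        have hg' := hg.push hN hk [a] (by simpa using hkN)
        have hg'' : GG δ (k + 1) (pushN δ [a] g) := by simpa using hg'
        refine Submodule.subset_span ⟨_, hg''.le, hg''.pair, ?_, rfl⟩
        rw [sum_pushN, h3, heq]
      exact this hf
    have hall : ∀ (w : List A) (f : Q → ℚ), f ∈ spanE (EE δ k) (m k) →
        pushQ δ w f ∈ spanE (EE δ k) (m k) := by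
      intro w
      induction w with
      | nil => intro f hf; rwa [pushQ_nil]
      | cons a w ih => intro f hf; rw [pushQ_cons]; exact ih _ (hletter a f hf)
    have h1 := hall r f hf
    rw [pushQ_reset δ hr, h0] at h1
    obtain ⟨g, hg, hgm⟩ := hm k
    exact single_notMem_spanE (fun x y h => h.symm) hg.le hg.pair (fun g' h1 h2 => by
      rw [hgm]
      exact hmmax k g' ⟨h1, h2⟩) hgm (by have := hmn k; omega) q h1
  have key : ∀ k, a ≤ k → k ≤ b → k + 1 ≤ a + Module.finrank ℚ (spanE (EE δ k) (m k)) := by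
    intro k hk
    induction k, hk using Nat.le_induction with
    | base =>
      intro _
      have := hpos a
      omega
    | succ k hk ih =>
      intro hkb
      have h1 := ih (by omega)
      have h2 := hstep k (by omega) (by omega)
        ((hconst k hk (by omega)).trans (hconst (k + 1) (by omega) hkb).symm)
      omega
  have h1 := key b hab le_rfl
  have h2 := hdim b
  have h3 := hmn b
  omega

end Pool.Agent.Lib_helper76.TF
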