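import Mathlib
set_option autoImplicit false

/-!
Periodic points of a self-map of a finite set: the inverse on the periodic points, the number of
steps after which every point is periodic, and the points whose backward orbit is periodic.
-/

namespace Pool.Agent.Lib_helper76.TF

open Finset Function

universe u

variable {Q : Type u} [Fintype Q]

/-- The inverse of `f` on its periodic points. -/
def FF (f : Q → Q) : Q → Q := f^[(Fintype.card Q).factorial - 1]

omit [Fintype Q] in
theorem per_iter {f : Q → Q} {x : Q} (h : x ∈ periodicPts f) (i : ℕ) :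
    f^[i] x ∈ periodicPts f := by
  induction i generalizing x with
  | zero => exact h
  | succ i ih => rw [iterate_succ_apply]; exact ih ((bijOn_periodicPts f).mapsTo h)

omit [Fintype Q] in
theorem per_f {f : Q → Q} {x : Q} (h : x ∈ periodicPts f) : f x ∈ periodicPts f :=
  (bijOn_periodicPts f).mapsTo h

theorem per_FF {f : Q → Q} {x : Q} (h : x ∈ periodicPts f) : FF f x ∈ periodicPts f :=
  per_iter h _

theorem fact_iter {f : Q → Q} {x : Q} (h : x ∈ periodicPts f) :
    f^[(Fintype.card Q).factorial - 1 + 1] x = x := by
  rw [Nat.sub_add_cancel (Nat.factorial_pos _)]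
  exact isPeriodicPt_factorial_card_of_mem_periodicPts h

theorem f_FF {f : Q → Q} {x : Q} (h : x ∈ periodicPts f) : f (FF f x) = x := by
  have := fact_iter h
  rwa [iterate_succ_apply'] at this

theorem FF_f {f : Q → Q} {x : Q} (h : x ∈ periodicPts f) : FF f (f x) = x := by
  have := fact_iter h
  rwa [iterate_succ_apply] at this

theorem per_FF_iter {f : Q → Q} {x : Q} (h : x ∈ periodicPts f) (i : ℕ) :
    (FF f)^[i] x ∈ periodicPts f := by
  induction i generalizing x with
  | zero => exact h
  | succ i ih => rw [iterate_succ_apply]; exact ih (per_FF h)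

theorem iter_FF {f : Q → Q} {x : Q} (h : x ∈ periodicPts f) (i : ℕ) :
    f^[i] ((FF f)^[i] x) = x := by
  induction i generalizing x with
  | zero => rfl
  | succ i ih =>
    rw [iterate_succ_apply (FF f), iterate_succ_apply' f, ih (per_FF h), f_FF h]

theorem FF_iter {f : Q → Q} {x : Q} (h : x ∈ periodicPts f) (i : ℕ) :
    (FF f)^[i] (f^[i] x) = x := by
  induction i generalizing x with
  | zero => rfl
  | succ i ih =>
    rw [iterate_succ_apply f, iterate_succ_apply' (FF f), ih (per_f h), FF_f h]

theorem FF_period {f : Q → Q} {x : Q} (h : x ∈ periodicPts f) {a : ℕ} (ha : f^[a] x = x) (i : ℕ) :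
    (FF f)^[i + a] x = (FF f)^[i] x := by
  rw [iterate_add_apply]
  congr 1
  conv_lhs => rw [← ha]
  exact FF_iter h a

/-- The periodic points, as a finite set. -/
noncomputable def PP (f : Q → Q) : Finset Q := by
  classical exact univ.filter (fun x => x ∈ periodicPts f)

theorem mem_PP {f : Q → Q} {x : Q} : x ∈ PP f ↔ x ∈ periodicPts f := by
  classical
  unfold PP
  simp

theorem minimalPeriod_le_PP (f : Q → Q) (x : Q) : minimalPeriod f x ≤ (PP f).card := by
  classical
  by_cases hx : x ∈ periodicPts f
  · have h := Finset.card_le_card_of_injOn (s := range (minimalPeriod f x)) (t := PP f)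
      (fun i => f^[i] x) (fun i _ => mem_PP.mpr (per_iter hx i)) (by
        intro i hi j hj hij
        exact iterate_injOn_Iio_minimalPeriod (by simpa using hi) (by simpa using hj) hij)
    simpa using h
  · rw [minimalPeriod_eq_zero_of_notMem_periodicPts hx]
    exact Nat.zero_le _

/-- Every point becomes periodic after as many steps as there are points that are not periodic. -/
theorem iter_mem_PP (f : Q → Q) (x : Q) :
    f^[Fintype.card Q - (PP f).card] x ∈ periodicPts f := by
  classical
  by_contra hcon
  have hnot : ∀ i, i ≤ Fintype.card Q - (PP f).card → f^[i] x ∉ periodicPts f := by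
    intro i hi hper
    apply hcon
    have := per_iter hper (Fintype.card Q - (PP f).card - i)
    rwa [← iterate_add_apply, Nat.sub_add_cancel hi] at this
  have h := Finset.card_le_card_of_injOn (s := range (Fintype.card Q - (PP f).card + 1))
      (t := (PP f)ᶜ) (fun i => f^[i] x) (by
        intro i hi
        have hi' : i ≤ Fintype.card Q - (PP f).card := by
          have := Finset.mem_range.mp (Finset.mem_coe.mp hi)
          omega
        simp only [Finset.coe_compl, Set.mem_compl_iff, Finset.mem_coe, mem_PP]
        exact hnot i hi') (by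
        have key : ∀ i j : ℕ, i ≤ Fintype.card Q - (PP f).card → i < j → f^[i] x ≠ f^[j] x := by
          intro i j hi hij heq
          apply hnot i hi
          refine mk_mem_periodicPts (n := j - i) (by omega) ?_
          rw [IsPeriodicPt, IsFixedPt, ← iterate_add_apply, Nat.sub_add_cancel hij.le]
          exact heq.symm
        intro i hi j hj hij
        have hi' := Finset.mem_range.mp (Finset.mem_coe.mp hi)
        have hj' := Finset.mem_range.mp (Finset.mem_coe.mp hj)
        rcases lt_trichotomy i j with hlt | heq | hlt
        · exact absurd hij (key i j (by omega) hlt)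
        · exact heq
        · exact absurd hij.symm (key j i (by omega) hlt))
  rw [Finset.card_range, Finset.card_compl] at h
  omega

/-- Periodic points with periodic backward orbit. -/
def TFp (f : Q → Q) (x : Q) : Prop :=
  x ∈ periodicPts f ∧ ∀ y i, f^[i] y = x → y ∈ periodicPts f

/-- A periodic point that is not in a tree-free cycle is reached in few steps from a periodic point
with a preimage that is not periodic. -/
theorem exists_entry {f : Q → Q} {x : Q} (hx : x ∈ periodicPts f) (hT : ¬ TFp f x) :
    ∃ (e : Q) (i : ℕ), e ∉ periodicPts f ∧ f e ∈ periodicPts f ∧ i < (PP f).card ∧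
      f^[i] (f e) = x := by
  classical
  unfold TFp at hT
  push Not at hT
  obtain ⟨y, i, hyx, hy⟩ := hT hx
  have hex : ∃ j, f^[j] y ∈ periodicPts f := ⟨i, by rw [hyx]; exact hx⟩
  set j := Nat.find hex with hj
  have hj1 : f^[j] y ∈ periodicPts f := Nat.find_spec hex
  have hji : j ≤ i := Nat.find_min' hex (by rw [hyx]; exact hx)
  have hj0 : j ≠ 0 := by
    intro h0
    rw [h0] at hj1
    exact hy hj1
  obtain ⟨j', hj'⟩ := Nat.exists_eq_succ_of_ne_zero hj0
  have hlt : j' < Nat.find hex := by omega
  have he : f^[j'] y ∉ periodicPts f := Nat.find_min hex hlt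
  have hfe : f (f^[j'] y) = f^[j] y := by rw [hj', iterate_succ_apply']
  refine ⟨f^[j'] y, (i - j) % minimalPeriod f (f^[j] y), he, by rw [hfe]; exact hj1, ?_, ?_⟩
  · exact (Nat.mod_lt _ (minimalPeriod_pos_of_mem_periodicPts hj1)).trans_le
      (minimalPeriod_le_PP f _)
  · rw [hfe, iterate_mod_minimalPeriod_eq, ← iterate_add_apply, Nat.sub_add_cancel hji, hyx]

end Pool.Agent.Lib_helper76.TF
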