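import Mathlib
set_option autoImplicit false

/-!
Averages of two periodic sequences with small sums, and threshold rounding of numbers between `0`
and `2 * D` to `0`, `1`, `2`.
-/

namespace Pool.Agent.Lib_helper76.TF

open Finset

theorem sum_shift {X : ℕ → ℕ} {a : ℕ} (hX : ∀ i, X (i + a) = X i) (v : ℕ) :
    ∑ u ∈ range a, X (u + v) = ∑ u ∈ range a, X u := by
  induction v with
  | zero => rfl
  | succ v ih =>
    have h1 := Finset.sum_range_succ (fun u => X (u + v)) a
    have h2 := Finset.sum_range_succ' (fun u => X (u + v)) a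
    have h3 : ∀ u, X (u + 1 + v) = X (u + (v + 1)) := fun u => by congr 1; ring
    have h4 : X (a + v) = X (0 + v) := by
      rw [zero_add, add_comm a v]
      exact hX v
    rw [h1] at h2
    simp only [h3] at h2
    omega

theorem sum_mul_period {X : ℕ → ℕ} {a : ℕ} (hX : ∀ i, X (i + a) = X i) (c : ℕ) :
    ∑ i ∈ range (a * c), X i = c * ∑ i ∈ range a, X i := by
  induction c with
  | zero => simp
  | succ c ih =>
    have h1 : a * (c + 1) = a * c + a := by ring
    rw [h1, Finset.sum_range_add, ih]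
    have h2 : ∀ u, X (a * c + u) = X (u + a * c) := fun u => by rw [add_comm]
    simp only [h2]
    rw [sum_shift hX]
    ring

theorem sum_split (Y : ℕ → ℕ) (g c : ℕ) :
    ∑ u ∈ range g, ∑ v ∈ range c, Y (u + g * v) = ∑ i ∈ range (g * c), Y i := by
  induction c with
  | zero => simp
  | succ c ih =>
    have h1 : g * (c + 1) = g * c + g := by ring
    rw [h1, Finset.sum_range_add, ← ih]
    simp only [Finset.sum_range_succ, Finset.sum_add_distrib]
    congr 1
    refine Finset.sum_congr rfl fun u _ => ?_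
    rw [add_comm]

/-- Two periodic sequences whose sum is at most `2` on a window of length `a + b - gcd a b`: the
averages over the periods have sum at most `2`. -/
theorem avg_le {X Y : ℕ → ℕ} {a b : ℕ} (ha : 0 < a) (hX : ∀ i, X (i + a) = X i)
    (hY : ∀ i, Y (i + b) = Y i) (h : ∀ i, i + Nat.gcd a b < a + b → X i + Y i ≤ 2) :
    b * ∑ i ∈ range a, X i + a * ∑ i ∈ range b, Y i ≤ 2 * (a * b) := by
  obtain ⟨a', ha'⟩ := Nat.gcd_dvd_left a b
  obtain ⟨b', hb'⟩ := Nat.gcd_dvd_right a b
  have hg : 0 < Nat.gcd a b := Nat.gcd_pos_of_pos_left b ha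
  set g := Nat.gcd a b with hgd
  have h1 : ∑ u ∈ range a, ∑ v ∈ range b', (X (u + g * v) + Y (u + g * v)) ≤
      ∑ _u ∈ range a, ∑ _v ∈ range b', 2 := by
    refine Finset.sum_le_sum fun u hu => Finset.sum_le_sum fun v hv => h _ ?_
    have hu' := Finset.mem_range.mp hu
    have hv' := Finset.mem_range.mp hv
    have h2 : g * (v + 1) ≤ g * b' := Nat.mul_le_mul_left g hv'
    rw [← hb', Nat.mul_add, Nat.mul_one] at h2
    omega
  have hZ : ∀ u, ∑ v ∈ range b', Y (u + g + g * v) = ∑ v ∈ range b', Y (u + g * v) := by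
    intro u
    have h2 := sum_shift (X := fun v => Y (u + g * v)) (a := b') (by
      intro i
      show Y _ = Y _
      rw [Nat.mul_add, ← hb', ← Nat.add_assoc]
      exact hY _) 1
    rw [← h2]
    refine Finset.sum_congr rfl fun v _ => ?_
    congr 1
    ring
  have h3 : ∑ u ∈ range a, ∑ v ∈ range b', Y (u + g * v) = a' * ∑ i ∈ range b, Y i := by
    have h4 := sum_mul_period (X := fun u => ∑ v ∈ range b', Y (u + g * v)) (a := g) hZ a'
    rw [← ha'] at h4
    rw [h4, sum_split, ← hb']
  have h5 : ∑ u ∈ range a, ∑ v ∈ range b', X (u + g * v) = b' * ∑ i ∈ range a, X i := by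
    rw [Finset.sum_comm]
    simp only [sum_shift hX, Finset.sum_const, Finset.card_range, smul_eq_mul]
  simp only [Finset.sum_add_distrib] at h1
  rw [h3, h5] at h1
  simp only [Finset.sum_const, Finset.card_range, smul_eq_mul] at h1
  set S := ∑ i ∈ range a, X i
  set T := ∑ i ∈ range b, Y i
  calc b * S + a * T = g * (b' * S + a' * T) := by
        conv_lhs => rw [hb', ha']
        ring
    _ ≤ g * (a * (b' * 2)) := Nat.mul_le_mul_left _ h1
    _ = 2 * (a * (g * b')) := by ring
    _ = 2 * (a * b) := by rw [← hb']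

theorem avg_D {X Y : ℕ → ℕ} {a b D : ℕ} (ha : 0 < a) (hb : 0 < b) (haD : a ∣ D) (hbD : b ∣ D)
    (hX : ∀ i, X (i + a) = X i) (hY : ∀ i, Y (i + b) = Y i)
    (h : ∀ i, i + Nat.gcd a b < a + b → X i + Y i ≤ 2) :
    ∑ i ∈ range D, X i + ∑ i ∈ range D, Y i ≤ 2 * D := by
  obtain ⟨c, hc⟩ := haD
  obtain ⟨d, hd⟩ := hbD
  have h1 : ∑ i ∈ range D, X i = c * ∑ i ∈ range a, X i := by rw [hc]; exact sum_mul_period hX c
  have h2 : ∑ i ∈ range D, Y i = d * ∑ i ∈ range b, Y i := by rw [hd]; exact sum_mul_period hY d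
  have h3 := avg_le ha hX hY h
  rw [h1, h2]
  set S := ∑ i ∈ range a, X i
  set T := ∑ i ∈ range b, Y i
  have hab : 0 < a * b := Nat.mul_pos ha hb
  have h4 : (a * b) * (c * S + d * T) ≤ (a * b) * (2 * D) := by
    calc (a * b) * (c * S + d * T) = (a * c) * (b * S) + (b * d) * (a * T) := by ring
      _ = D * (b * S + a * T) := by rw [← hc, ← hd]; ring
      _ ≤ D * (2 * (a * b)) := Nat.mul_le_mul_left _ h3
      _ = (a * b) * (2 * D) := by ring
  exact Nat.le_of_mul_le_mul_left h4 hab

/-- Threshold rounding. -/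
def thr (D t c : ℕ) : ℕ := (if t + 1 ≤ c then 1 else 0) + (if 2 * D - t ≤ c then 1 else 0)

theorem thr_le (D t c : ℕ) : thr D t c ≤ 2 := by
  unfold thr
  split_ifs <;> omega

theorem thr_pair {D t c c' : ℕ} (ht : t < D) (h : c + c' ≤ 2 * D) :
    thr D t c + thr D t c' ≤ 2 := by
  unfold thr
  split_ifs <;> omega

theorem sum_thr {D c : ℕ} (hc : c ≤ 2 * D) : ∑ t ∈ range D, thr D t c = c := by
  unfold thr
  rw [Finset.sum_add_distrib, ← Finset.card_filter, ← Finset.card_filter]
  have h1 : (range D).filter (fun t => t + 1 ≤ c) = range (min D c) := by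
    ext t
    simp only [mem_filter, mem_range]
    omega
  have h2 : (range D).filter (fun t => 2 * D - t ≤ c) = Finset.Ico (2 * D - c) D := by
    ext t
    simp only [mem_filter, mem_range, mem_Ico]
    omega
  rw [h1, h2, Finset.card_range, Nat.card_Ico]
  omega

end Pool.Agent.Lib_helper76.TF
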