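import Pool.Agent.Lib_helper76.TF.Basic
import Pool.Agent.Lib_helper76.TF.Round
import Pool.Agent.Lib_helper76.TF.Per
set_option autoImplicit false

/-!
Averaging a weight over the cycles of a word: the maximal total of all weights of a level is at most
the maximal total of the weights of a later level that are constant on the cycles of the word and
vanish outside them.
-/

namespace Pool.Agent.Lib_helper76.TF

open Finset Function Pool.Agent.Lib_helper91.Rdv

universe u v

variable {Q : Type u} {A : Type v} [Fintype Q] [DecidableEq Q]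

omit [DecidableEq Q] in
/-- In late levels, pairs of periodic states lie in tree-free cycles. -/
theorem EE_TF {δ : A → Q → Q} {w : List A} {k : ℕ}
    (hk : w.length * (PP (run δ w)).card < k) {x y : Q} (h : EE δ k x y)
    (hx : x ∈ periodicPts (run δ w)) (hy : y ∈ periodicPts (run δ w)) : TFp (run δ w) x := by
  by_contra hT
  obtain ⟨e, i, he, hfe, hi, hix⟩ := exists_entry hx hT
  have h1 : (run δ w)^[i + 1] e = x := by rw [iterate_succ_apply, hix]
  have h2 : (run δ w)^[i + 1] (FF (run δ w) (run δ w e)) = x := by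
    rw [iterate_succ_apply, f_FF hfe, hix]
  have h3 : (run δ w)^[i + 1] ((FF (run δ w))^[i + 1] y) = y := iter_FF hy _
  refine h.2 (pw w (i + 1)) ?_ ⟨e, FF (run δ w) (run δ w e), (FF (run δ w))^[i + 1] y,
    ?_, ?_, ?_, Or.inl ?_, Or.inl ?_, Or.inr ?_⟩
  · rw [pw_length]
    exact (Nat.mul_le_mul_left _ hi).trans_lt hk
  · intro heq
    apply he
    rw [heq]
    exact per_FF hfe
  · intro heq
    rw [← heq] at h3
    exact h.1 (h1.symm.trans h3)
  · intro heq
    rw [← heq] at h3
    exact h.1 (h2.symm.trans h3)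
  · rw [run_pw, h1]
  · rw [run_pw, h2]
  · rw [run_pw, h3]

/-- Weights of level `k` that vanish outside the cycles of `f` and are constant on them. -/
structure CC (δ : A → Q → Q) (f : Q → Q) (k : ℕ) (g : Q → ℕ) : Prop where
  gg : GG δ k g
  zero : ∀ x, x ∉ periodicPts f → g x = 0
  inv : ∀ x, x ∈ periodicPts f → g (f x) = g x

omit [DecidableEq Q] in
theorem sum_FF (f : Q → Q) (g : Q → ℕ) (i : ℕ) :
    ∑ x ∈ PP f, g ((FF f)^[i] x) = ∑ x ∈ PP f, g x := by
  refine Finset.sum_nbij' (fun x => (FF f)^[i] x) (fun x => f^[i] x) ?_ ?_ ?_ ?_ ?_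
  · intro x hx
    exact mem_PP.mpr (per_FF_iter (mem_PP.mp hx) i)
  · intro x hx
    exact mem_PP.mpr (per_iter (mem_PP.mp hx) i)
  · intro x hx
    exact iter_FF (mem_PP.mp hx) i
  · intro x hx
    exact FF_iter (mem_PP.mp hx) i
  · intro x _
    rfl

/-- Total over a common period of the values along the cycle, taken backwards. -/
def cs (f : Q → Q) (g : Q → ℕ) (x : Q) : ℕ :=
  ∑ i ∈ range (Fintype.card Q).factorial, g ((FF f)^[i] x)

omit [DecidableEq Q] in
theorem cs_inv {f : Q → Q} (g : Q → ℕ) {x : Q} (hx : x ∈ periodicPts f) :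
    cs f g (f x) = cs f g x := by
  unfold cs
  have h1 := sum_shift (X := fun i => g ((FF f)^[i] (f x))) (a := (Fintype.card Q).factorial) (by
    intro i
    show g _ = g _
    rw [FF_period (per_f hx)]
    exact isPeriodicPt_factorial_card_of_mem_periodicPts (per_f hx)) 1
  rw [← h1]
  refine Finset.sum_congr rfl fun i _ => ?_
  rw [iterate_succ_apply, FF_f hx]

omit [DecidableEq Q] in
theorem cs_le {f : Q → Q} {g : Q → ℕ} (hg : ∀ x, g x ≤ 2) (x : Q) :
    cs f g x ≤ 2 * (Fintype.card Q).factorial := by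
  unfold cs
  calc _ ≤ ∑ _i ∈ range (Fintype.card Q).factorial, 2 := Finset.sum_le_sum fun i _ => hg _
    _ = _ := by simp [mul_comm]

omit [DecidableEq Q] in
theorem sum_cs (f : Q → Q) (g : Q → ℕ) :
    ∑ x ∈ PP f, cs f g x = (Fintype.card Q).factorial * ∑ x ∈ PP f, g x := by
  unfold cs
  rw [Finset.sum_comm]
  simp only [sum_FF, Finset.sum_const, Finset.card_range, smul_eq_mul]

omit [DecidableEq Q] in
theorem cs_pair {δ : A → Q → Q} {w : List A} {k b W : ℕ}
    (hTF : ∀ x y, TFp (run δ w) x → TFp (run δ w) y →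
      minimalPeriod (run δ w) x + minimalPeriod (run δ w) y ≤
        W + 1 + Nat.gcd (minimalPeriod (run δ w) x) (minimalPeriod (run δ w) y))
    (hkb : k + w.length * W ≤ b) {g : Q → ℕ} (hg : GG δ k g) {x y : Q}
    (hxy : EE δ b x y) (hx : TFp (run δ w) x) (hy : TFp (run δ w) y) :
    cs (run δ w) g x + cs (run δ w) g y ≤ 2 * (Fintype.card Q).factorial := by
  unfold cs
  have hx1 := minimalPeriod_pos_of_mem_periodicPts hx.1
  have hy1 := minimalPeriod_pos_of_mem_periodicPts hy.1
  refine avg_D hx1 hy1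
    (isPeriodicPt_factorial_card_of_mem_periodicPts hx.1).minimalPeriod_dvd
    (isPeriodicPt_factorial_card_of_mem_periodicPts hy.1).minimalPeriod_dvd ?_ ?_ ?_
  · intro i
    show g _ = g _
    rw [FF_period hx.1 iterate_minimalPeriod]
  · intro i
    show g _ = g _
    rw [FF_period hy.1 iterate_minimalPeriod]
  · intro i hi
    have h1 := hTF x y hx hy
    apply hg.pair
    refine EE_pull hxy (w := pw w i) ?_ ?_ ?_
    · rw [run_pw, iter_FF hx.1]
    · rw [run_pw, iter_FF hy.1]
    · rw [pw_length]
      have : w.length * i ≤ w.length * W := Nat.mul_le_mul_left _ (by omega)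
      omega

/-- The key comparison. -/
theorem key {δ : A → Q → Q} {w : List A} {N : ℕ} (hN : ∀ w, Tri δ w → N ≤ w.length)
    {k b W : ℕ} (hk : 1 ≤ k) (hb : b ≤ N) (hcb : w.length * (PP (run δ w)).card < b)
    (hTF : ∀ x y, TFp (run δ w) x → TFp (run δ w) y →
      minimalPeriod (run δ w) x + minimalPeriod (run δ w) y ≤
        W + 1 + Nat.gcd (minimalPeriod (run δ w) x) (minimalPeriod (run δ w) y))
    (hkb : k + w.length * (Fintype.card Q - (PP (run δ w)).card + W) ≤ b)
    {g : Q → ℕ} (hg : GG δ k g) :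
    ∃ g', CC δ (run δ w) b g' ∧ ∑ x, g x ≤ ∑ x, g' x := by
  classical
  set f := run δ w with hf
  set h := Fintype.card Q - (PP f).card with hh
  set D := (Fintype.card Q).factorial with hD
  have hD0 : 0 < D := Nat.factorial_pos _
  rw [Nat.mul_add] at hkb
  -- push to the cycles
  have hlen : (pw w h).length = w.length * h := pw_length w h
  have hg1 : GG δ (k + w.length * h) (pushN δ (pw w h) g) := by
    have := hg.push hN hk (pw w h) (by rw [hlen]; omega)
    rwa [hlen] at this
  set g1 := pushN δ (pw w h) g with hg1d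
  have hsum1 : ∑ x, g1 x = ∑ x, g x := sum_pushN δ _ g
  have hzero : ∀ x, x ∉ periodicPts f → g1 x = 0 := by
    intro x hx
    rw [hg1d]
    unfold pushN
    apply Finset.sum_eq_zero
    intro z hz
    simp only [mem_filter, mem_univ, true_and] at hz
    exfalso
    apply hx
    rw [← hz, run_pw]
    exact iter_mem_PP f z
  have hsumP : ∑ x ∈ PP f, g1 x = ∑ x, g1 x := by
    apply Finset.sum_subset (Finset.subset_univ _)
    intro x _ hx
    exact hzero x (fun h => hx (mem_PP.mpr h))
  let G : ℕ → Q → ℕ := fun t x => if x ∈ periodicPts f then thr D t (cs f g1 x) else 0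
  have hG : ∀ t, t < D → CC δ f b (G t) := by
    intro t ht
    refine ⟨⟨?_, ?_⟩, ?_, ?_⟩
    · intro x
      by_cases hx : x ∈ periodicPts f
      · simp only [G, if_pos hx]
        exact thr_le _ _ _
      · simp only [G, if_neg hx]
        exact Nat.zero_le _
    · intro x y hxy
      by_cases hx : x ∈ periodicPts f
      · by_cases hy : y ∈ periodicPts f
        · simp only [G, if_pos hx, if_pos hy]
          apply thr_pair ht
          have h1 : TFp f x := EE_TF hcb hxy hx hy
          have h2 : TFp f y := EE_TF hcb hxy.symm hy hx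
          exact cs_pair hTF (by omega) hg1 hxy h1 h2
        · simp only [G, if_pos hx, if_neg hy]
          exact thr_le _ _ _
      · simp only [G, if_neg hx, zero_add]
        by_cases hy : y ∈ periodicPts f
        · simp only [if_pos hy]
          exact thr_le _ _ _
        · simp only [if_neg hy]
          exact Nat.zero_le _
    · intro x hx
      simp only [G, if_neg hx]
    · intro x hx
      simp only [G, if_pos hx, if_pos (per_f hx), cs_inv g1 hx]
  have htot : ∑ _t ∈ range D, ∑ x, g x ≤ ∑ t ∈ range D, ∑ x, G t x := by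
    rw [Finset.sum_comm (f := fun t x => G t x)]
    have h1 : ∀ x, ∑ t ∈ range D, G t x = if x ∈ periodicPts f then cs f g1 x else 0 := by
      intro x
      by_cases hx : x ∈ periodicPts f
      · simp only [G, if_pos hx]
        exact sum_thr (cs_le hg1.le x)
      · simp only [G, if_neg hx]
        simp
    have h2 : ∑ x, ∑ t ∈ range D, G t x = ∑ x ∈ PP f, cs f g1 x := by
      rw [Finset.sum_congr rfl fun x _ => h1 x, ← Finset.sum_filter]
      apply Finset.sum_congr _ fun _ _ => rfl
      ext x
      rw [mem_PP]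
      simp
    rw [h2, sum_cs, hsumP, hsum1, Finset.sum_const, Finset.card_range, smul_eq_mul]
  obtain ⟨t, ht, hle⟩ := Finset.exists_le_of_sum_le (Finset.nonempty_range_iff.mpr hD0.ne') htot
  exact ⟨G t, hG t (Finset.mem_range.mp ht), hle⟩

omit [DecidableEq Q] in
/-- The maximal total of the weights that are constant on the cycles. -/
theorem exists_maxCC (δ : A → Q → Q) (f : Q → Q) (k : ℕ) :
    ∃ m : ℕ, (∃ g, CC δ f k g ∧ ∑ x, g x = m) ∧ ∀ g, CC δ f k g → ∑ x, g x ≤ m := by
  classical
  let P : ℕ → Prop := fun s => ∃ g, CC δ f k g ∧ ∑ x, g x = s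
  have h1 : P 0 := ⟨fun _ => 0, ⟨⟨fun _ => by norm_num, fun _ _ _ => by norm_num⟩,
    fun _ _ => rfl, fun _ _ => rfl⟩, by simp⟩
  refine ⟨Nat.findGreatest P (2 * Fintype.card Q), Nat.findGreatest_spec (Nat.zero_le _) h1,
    fun g hg => ?_⟩
  exact Nat.le_findGreatest hg.gg.total_le ⟨g, hg, rfl⟩

end Pool.Agent.Lib_helper76.TF
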