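import Pool.Agent.Lib_helper76.TF.Key
set_option autoImplicit false

/-!
The bound on the least length of a word merging three states in terms of the tree-free cycles of
one word.
-/

namespace Pool.Agent.Lib_helper76.TF

open Finset Function Pool.Agent.Lib_helper91.Rdv

universe u v

/-- Counting levels by phases. -/
theorem count_phases {M ρ : ℕ → ℕ} {s L c0 N : ℕ} (hρs : ∀ k, c0 < k → ρ k ≤ s)
    (hρ : ∀ k, c0 < k → k < N → M (k + 1) ≠ M k → ρ (k + 1) < ρ k)
    (hmono : ∀ k, c0 < k → k < N → ρ (k + 1) ≤ ρ k)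
    (hrun : ∀ a b, c0 < a → a ≤ b → b ≤ N → (∀ k, a ≤ k → k ≤ b → M k = M a) → b + 1 ≤ a + L) :
    N ≤ c0 + (s + 1) * L := by
  by_cases hN : N ≤ c0
  · exact hN.trans (Nat.le_add_right _ _)
  have key : ∀ k, c0 + 1 ≤ k → k ≤ N → ∃ a, c0 < a ∧ a ≤ k ∧ (∀ j, a ≤ j → j ≤ k → M j = M a) ∧
      a ≤ c0 + 1 + (s - ρ k) * L := by
    intro k hk
    induction k, hk using Nat.le_induction with
    | base =>
      intro _
      refine ⟨c0 + 1, by omega, le_rfl, ?_, Nat.le_add_right _ _⟩
      intro j h1 h2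
      rw [show j = c0 + 1 by omega]
    | succ k hk ih =>
      intro hkN
      obtain ⟨a, h1, h2, h3, h4⟩ := ih (by omega)
      by_cases hM : M (k + 1) = M k
      · refine ⟨a, h1, by omega, ?_, ?_⟩
        · intro j hj hj'
          rcases Nat.lt_or_ge j (k + 1) with h | h
          · exact h3 j hj (by omega)
          · rw [show j = k + 1 by omega, hM]
            exact h3 k h2 le_rfl
        · have h5 := hmono k (by omega) (by omega)
          have h6 : (s - ρ k) * L ≤ (s - ρ (k + 1)) * L := Nat.mul_le_mul_right _ (by omega)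
          omega
      · refine ⟨k + 1, by omega, le_rfl, ?_, ?_⟩
        · intro j hj hj'
          rw [show j = k + 1 by omega]
        · have h5 := hρ k (by omega) (by omega) hM
          have h6 := hρs k (by omega)
          have h7 := hrun a k h1 h2 (by omega) h3
          have h8 : (s - ρ k + 1) * L ≤ (s - ρ (k + 1)) * L := Nat.mul_le_mul_right _ (by omega)
          rw [Nat.add_mul, one_mul] at h8
          omega
  obtain ⟨a, h1, h2, h3, h4⟩ := key N (by omega) le_rfl
  have h5 := hrun a N h1 h2 le_rfl h3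
  have h6 : (s - ρ N) * L ≤ s * L := Nat.mul_le_mul_right _ (Nat.sub_le _ _)
  rw [Nat.add_mul, one_mul]
  omega

variable {Q : Type u} {A : Type v} [Fintype Q]

/-- The states in tree-free cycles. -/
noncomputable def TFs (f : Q → Q) : Finset Q := by
  classical exact univ.filter (fun x => TFp f x)

theorem mem_TFs {f : Q → Q} {x : Q} : x ∈ TFs f ↔ TFp f x := by
  classical
  unfold TFs
  simp

/-- The forward orbit. -/
noncomputable def orb (f : Q → Q) (x : Q) : Finset Q := by
  classical exact univ.filter (fun y => ∃ i, f^[i] x = y)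

theorem mem_orb {f : Q → Q} {x y : Q} : y ∈ orb f x ↔ ∃ i, f^[i] x = y := by
  classical
  unfold orb
  simp

theorem card_orb {f : Q → Q} {x : Q} (hx : x ∈ periodicPts f) :
    (orb f x).card = minimalPeriod f x := by
  classical
  have h1 : orb f x = (range (minimalPeriod f x)).image (fun i => f^[i] x) := by
    ext y
    rw [mem_orb, mem_image]
    constructor
    · rintro ⟨i, rfl⟩
      exact ⟨i % minimalPeriod f x,
        mem_range.mpr (Nat.mod_lt _ (minimalPeriod_pos_of_mem_periodicPts hx)),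
        iterate_mod_minimalPeriod_eq⟩
    · rintro ⟨i, -, rfl⟩
      exact ⟨i, rfl⟩
  rw [h1, Finset.card_image_of_injOn, Finset.card_range]
  intro i hi j hj hij
  exact iterate_injOn_Iio_minimalPeriod (by simpa using hi) (by simpa using hj) hij

theorem TFp_f {f : Q → Q} {x : Q} (hx : x ∈ periodicPts f) : TFp f (f x) ↔ TFp f x := by
  constructor
  · intro h
    refine ⟨hx, fun y i hy => h.2 y (i + 1) ?_⟩
    rw [iterate_succ_apply', hy]
  · intro h
    refine ⟨per_f hx, fun y i hy => h.2 y ((Fintype.card Q).factorial - 1 + i) ?_⟩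
    rw [iterate_add_apply, hy]
    exact FF_f hx

theorem TFs_subset (f : Q → Q) : TFs f ⊆ PP f := fun _ hx => mem_PP.mpr (mem_TFs.mp hx).1

omit [Fintype Q] in
theorem CC.orb_eq {δ : A → Q → Q} {f : Q → Q} {k : ℕ} {g : Q → ℕ} (h : CC δ f k g) {x : Q}
    (hx : x ∈ periodicPts f) (i : ℕ) : g (f^[i] x) = g x := by
  induction i with
  | zero => rfl
  | succ i ih => rw [iterate_succ_apply', h.inv _ (per_iter hx i), ih]

theorem CC.eq_of_orb {δ : A → Q → Q} {f : Q → Q} {k : ℕ} {g : Q → ℕ} (h : CC δ f k g) {x y : Q}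
    (hx : x ∈ periodicPts f) (hxy : orb f x = orb f y) : g y = g x := by
  have : y ∈ orb f x := by rw [hxy]; exact mem_orb.mpr ⟨0, rfl⟩
  obtain ⟨i, rfl⟩ := mem_orb.mp this
  exact h.orb_eq hx i

open Classical in
/-- The unordered pairs of tree-free cycles that are joined in level `k`. -/
noncomputable def AD (δ : A → Q → Q) (f : Q → Q) (k : ℕ) : Finset (Sym2 (Finset Q)) :=
  ((TFs f ×ˢ TFs f).filter (fun z => EE δ k z.1 z.2)).image (fun z => s(orb f z.1, orb f z.2))

theorem mem_AD {δ : A → Q → Q} {f : Q → Q} {k : ℕ} {z : Sym2 (Finset Q)} :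
    z ∈ AD δ f k ↔ ∃ x y, TFp f x ∧ TFp f y ∧ EE δ k x y ∧ s(orb f x, orb f y) = z := by
  classical
  unfold AD
  simp only [mem_image, mem_filter, mem_product, mem_TFs, Prod.exists]
  constructor
  · rintro ⟨x, y, ⟨⟨h1, h2⟩, h3⟩, h4⟩
    exact ⟨x, y, h1, h2, h3, h4⟩
  · rintro ⟨x, y, h1, h2, h3, h4⟩
    exact ⟨x, y, ⟨⟨h1, h2⟩, h3⟩, h4⟩

theorem AD_anti (δ : A → Q → Q) (f : Q → Q) {k l : ℕ} (hkl : k ≤ l) : AD δ f l ⊆ AD δ f k := by
  intro z hz
  obtain ⟨x, y, h1, h2, h3, h4⟩ := mem_AD.mp hz
  exact mem_AD.mpr ⟨x, y, h1, h2, h3.mono hkl, h4⟩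

theorem card_AD_le [DecidableEq (Finset Q)] (δ : A → Q → Q) (f : Q → Q) (k : ℕ) :
    (AD δ f k).card ≤ (((TFs f).image (orb f)).card + 1).choose 2 := by
  rw [← Finset.card_sym2]
  apply Finset.card_le_card
  intro z hz
  obtain ⟨x, y, h1, h2, h3, rfl⟩ := mem_AD.mp hz
  rw [Finset.mk_mem_sym2_iff]
  exact ⟨mem_image_of_mem _ (mem_TFs.mpr h1), mem_image_of_mem _ (mem_TFs.mpr h2)⟩

omit [Fintype Q] in
theorem CC.mono {δ : A → Q → Q} {f : Q → Q} {k l : ℕ} (hkl : k ≤ l) {g : Q → ℕ}
    (h : CC δ f k g) : CC δ f l g := ⟨h.gg.mono hkl, h.zero, h.inv⟩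

/-- Weights that are constant on the cycles only see which tree-free cycles are joined. -/
theorem CC.of_AD {δ : A → Q → Q} {w : List A} {k l : ℕ}
    (hk : w.length * (PP (run δ w)).card < k) (h : AD δ (run δ w) k ⊆ AD δ (run δ w) l)
    {g : Q → ℕ} (hg : CC δ (run δ w) l g) : CC δ (run δ w) k g := by
  refine ⟨⟨hg.gg.le, fun x y hxy => ?_⟩, hg.zero, hg.inv⟩
  by_cases hx : x ∈ periodicPts (run δ w)
  · by_cases hy : y ∈ periodicPts (run δ w)
    · have h1 := EE_TF hk hxy hx hy
      have h2 := EE_TF hk hxy.symm hy hx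
      obtain ⟨x', y', h3, h4, h5, h6⟩ := mem_AD.mp (h (mem_AD.mpr ⟨x, y, h1, h2, hxy, rfl⟩))
      have h7 := hg.gg.pair x' y' h5
      rw [Sym2.eq_iff] at h6
      rcases h6 with ⟨h8, h9⟩ | ⟨h8, h9⟩
      · rw [hg.eq_of_orb h3.1 h8, hg.eq_of_orb h4.1 h9]
        exact h7
      · rw [hg.eq_of_orb h3.1 h8, hg.eq_of_orb h4.1 h9, add_comm]
        exact h7
    · rw [hg.zero y hy, add_zero]
      exact hg.gg.le x
  · rw [hg.zero x hx, zero_add]
    exact hg.gg.le y

/-- The least total. -/
theorem exists_CC_large {δ : A → Q → Q} {w : List A} {k : ℕ}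
    (hk : w.length * (PP (run δ w)).card < k) :
    ∃ g, CC δ (run δ w) k g ∧ 2 * (PP (run δ w)).card ≤ ∑ x, g x + (TFs (run δ w)).card := by
  classical
  set f := run δ w with hf
  refine ⟨fun x => if x ∈ periodicPts f then (if TFp f x then 1 else 2) else 0,
    ⟨⟨?_, ?_⟩, ?_, ?_⟩, ?_⟩
  · intro x
    split_ifs <;> norm_num
  · intro x y hxy
    by_cases hx : x ∈ periodicPts f
    · by_cases hy : y ∈ periodicPts f
      · have h1 : TFp f x := EE_TF hk hxy hx hy
        have h2 : TFp f y := EE_TF hk hxy.symm hy hx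
        rw [if_pos hx, if_pos h1, if_pos hy, if_pos h2]
      · rw [if_neg hy]
        split_ifs <;> norm_num
    · rw [if_neg hx]
      split_ifs <;> norm_num
  · intro x hx
    rw [if_neg hx]
  · intro x hx
    rw [if_pos hx, if_pos (per_f hx)]
    by_cases h : TFp f x
    · rw [if_pos h, if_pos ((TFp_f hx).mpr h)]
    · rw [if_neg h, if_neg (fun h' => h ((TFp_f hx).mp h'))]
  · have h1 : ∑ x, (if x ∈ periodicPts f then (if TFp f x then 1 else 2) else 0) +
        ∑ x, (if x ∈ TFs f then 1 else 0) = ∑ x, (if x ∈ PP f then 2 else 0) := by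
      rw [← Finset.sum_add_distrib]
      refine Finset.sum_congr rfl fun x _ => ?_
      by_cases hx : x ∈ periodicPts f
      · by_cases hT : TFp f x
        · simp [mem_TFs, mem_PP, hx, hT]
        · simp [mem_TFs, mem_PP, hx, hT]
      · have hT : ¬ TFp f x := fun h => hx h.1
        simp [mem_TFs, mem_PP, hx, hT]
    rw [Finset.sum_ite_mem, Finset.sum_ite_mem] at h1
    simp only [univ_inter, sum_const, smul_eq_mul, mul_one] at h1
    have h2 : ∑ x, (fun x => if x ∈ periodicPts f then (if TFp f x then 1 else 2) else 0) x =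
      ∑ x, (if x ∈ periodicPts f then (if TFp f x then 1 else 2) else 0) := rfl
    rw [h2]
    omega

/-- The bound. -/
theorem main_bound [DecidableEq (Finset Q)] {δ : A → Q → Q} {r : List A} {q : Q} (hr : ∀ p, run δ r p = q)
    (hn : 3 ≤ Fintype.card Q) {N : ℕ} (hN : ∀ w, Tri δ w → N ≤ w.length) (w : List A) {p s : ℕ}
    (hTF : ∀ x y, TFp (run δ w) x → TFp (run δ w) y →
      minimalPeriod (run δ w) x + minimalPeriod (run δ w) y ≤
        p + 1 + Nat.gcd (minimalPeriod (run δ w) x) (minimalPeriod (run δ w) y))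
    (hs : (TFs (run δ w)).card ≤ s ∨
      (((TFs (run δ w)).image (orb (run δ w))).card + 1).choose 2 ≤ s ∨
      2 * (PP (run δ w)).card + 1 - Fintype.card Q ≤ s) :
    N ≤ w.length * (PP (run δ w)).card + (s + 1) * (Fintype.card Q / 2 + 1 +
        w.length * (Fintype.card Q - (PP (run δ w)).card + p)) := by
  classical
  choose m hm hmmax using exists_maxTotal δ
  choose M hM hMmax using exists_maxCC δ (run δ w)
  have hMm : ∀ k, M k ≤ m k := by
    intro k
    obtain ⟨g, hg, hgm⟩ := hM k
    rw [← hgm]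
    exact hmmax k g hg.gg
  have hMmono : ∀ k, M k ≤ M (k + 1) := by
    intro k
    obtain ⟨g, hg, hgm⟩ := hM k
    rw [← hgm]
    exact hMmax _ g (hg.mono (Nat.le_succ k))
  have hMle : ∀ k, M k ≤ 2 * (PP (run δ w)).card := by
    intro k
    obtain ⟨g, hg, hgm⟩ := hM k
    rw [← hgm]
    have h3 : ∑ x ∈ PP (run δ w), g x = ∑ x, g x := by
      apply Finset.sum_subset (Finset.subset_univ _)
      intro x _ hx
      exact hg.zero x (fun h => hx (mem_PP.mpr h))
    rw [← h3]
    calc ∑ x ∈ PP (run δ w), g x ≤ ∑ _x ∈ PP (run δ w), 2 :=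
          Finset.sum_le_sum fun x _ => hg.gg.le x
      _ = 2 * (PP (run δ w)).card := by simp [mul_comm]
  have hmn : ∀ k, Fintype.card Q ≤ m k := by
    intro k
    have := hmmax k _ (GG.one δ k)
    simpa using this
  set W := w.length * (Fintype.card Q - (PP (run δ w)).card + p) with hW
  have hkey : ∀ k, 1 ≤ k → w.length * (PP (run δ w)).card < k + W → k + W ≤ N →
      m k ≤ M (k + W) := by
    intro k hk h1 h2
    obtain ⟨g, hg, hgm⟩ := hm k
    obtain ⟨g', hg', hle⟩ := key hN (k := k) (b := k + W) (W := p) hk h2 h1 hTF le_rfl hg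
    rw [← hgm]
    exact hle.trans (hMmax _ g' hg')
  have hrun : ∀ a b, w.length * (PP (run δ w)).card < a → a ≤ b → b ≤ N →
      (∀ k, a ≤ k → k ≤ b → M k = M a) → b + 1 ≤ a + (Fintype.card Q / 2 + 1 + W) := by
    intro a b ha hab hb hconst
    by_cases hlt : b < a + W
    · omega
    have hconst' : ∀ k, a ≤ k → k ≤ b - W → m k = M a := by
      intro k h1 h2
      apply le_antisymm
      · rw [← hconst (k + W) (by omega) (by omega)]
        exact hkey k (by omega) (by omega) (by omega)
      · rw [← hconst k h1 (by omega)]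
        exact hMm k
    have h1 := phase_le hr hn hN hm hmmax (a := a) (by omega) (b - W) (by omega) (by omega) (by
      intro k h1 h2
      rw [hconst' k h1 h2, hconst' a le_rfl (by omega)])
    omega
  rcases hs with hs | hs | hs
  · refine (count_phases (M := M) (ρ := fun k => 2 * (PP (run δ w)).card - M k)
      (s := s) ?_ ?_ ?_ hrun)
    · intro k hk
      obtain ⟨g, hg, hgl⟩ := exists_CC_large hk
      have := hMmax k g hg
      omega
    · intro k hk hkN hne
      have h1 := hMmono k
      have h2 := hMle (k + 1)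
      omega
    · intro k hk hkN
      have h1 := hMmono k
      omega
  · refine (count_phases (M := M) (ρ := fun k => (AD δ (run δ w) k).card) (s := s) ?_ ?_ ?_ hrun)
    · intro k hk
      exact (card_AD_le _ _ _).trans hs
    · intro k hk hkN hne
      apply Finset.card_lt_card
      rw [Finset.ssubset_iff_subset_ne]
      refine ⟨AD_anti _ _ (Nat.le_succ k), fun heq => hne ?_⟩
      apply le_antisymm _ (hMmono k)
      obtain ⟨g, hg, hgm⟩ := hM (k + 1)
      rw [← hgm]
      exact hMmax k g (CC.of_AD hk (by rw [heq]) hg)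
    · intro k hk hkN
      exact Finset.card_le_card (AD_anti _ _ (Nat.le_succ k))
  · refine (count_phases (M := fun k => max (M k) (Fintype.card Q - 1))
      (ρ := fun k => 2 * (PP (run δ w)).card - max (M k) (Fintype.card Q - 1)) (s := s)
      ?_ ?_ ?_ ?_)
    · intro k hk
      have h1 := hMle k
      omega
    · intro k hk hkN hne
      have h1 := hMmono k
      have h2 := hMle (k + 1)
      omega
    · intro k hk hkN
      have h1 := hMmono k
      omega
    · intro a b ha hab hb hconst
      by_cases hMa : Fintype.card Q ≤ M a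
      · refine hrun a b ha hab hb fun k h1 h2 => ?_
        have h3 := hconst k h1 h2
        omega
      · by_cases hlt : b < a + W
        · omega
        exfalso
        have h1 := hconst b hab le_rfl
        have h2 := hkey (b - W) (by omega) (by omega) (by omega)
        have h3 := hmn (b - W)
        rw [Nat.sub_add_cancel (by omega : W ≤ b)] at h2
        omega

end Pool.Agent.Lib_helper76.TF
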